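import Pool.Agent.C4K.StMul
import Pool.Agent.C4M.Gen
import Pool.Agent.Helper58_C4K.Pim

/-!
# C4K, module COI: the coins
-/

set_option autoImplicit false
set_option linter.unusedSectionVars false

namespace Pool.Agent.C4K.H59

open Finset Cl Pool.Agent.LLLA

section gen

variable {W : Type} [Fintype W] [DecidableEq W]

/-- weights of the coins -/
noncomputable def cq (p : W → ℝ) : W → Bool → ℝ := fun w b => if b = true then p w else 1 - p w

theorem cq_prob {p : W → ℝ} (h : ∀ w, 0 ≤ p w ∧ p w ≤ 1) :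
    IsProb (α := fun _ : W => Bool) (cq p) := by
  refine ⟨fun w a => ?_, fun w => ?_⟩
  · cases a
    · simpa [cq] using (h w).2
    · simpa [cq] using (h w).1
  · simp [cq]

theorem Pr_coin {p : W → ℝ} (h : ∀ w, 0 ≤ p w ∧ p w ≤ 1) (w : W) (b : Bool) :
    Pr (α := fun _ : W => Bool) (cq p) {ω | ω w = b} = cq p w b := by
  rw [Pr_eq_Ex, ← Ex_coord (α := fun _ : W => Bool) (cq_prob h) w b]
  congr 1
  funext ω
  simp [Set.indicator_apply]

theorem Pr_allfalse {p : W → ℝ} (h : ∀ w, 0 ≤ p w ∧ p w ≤ 1) (B : Finset W) :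
    Pr (α := fun _ : W => Bool) (cq p) {ω | ∀ w ∈ B, ω w = false} = ∏ w ∈ B, (1 - p w) := by
  have h1 := Pr_biInter (α := fun _ : W => Bool) (cq_prob h) B (fun w => {w})
    (fun w => {ω | ω w = false}) (by
      intro a _ ω η hw
      have := hw a (Finset.mem_singleton_self a)
      show (ω a = false) = (η a = false)
      rw [this]) (by
      intro a _ b _ hab
      rw [Finset.disjoint_singleton]
      exact hab)
  refine Eq.trans (Eq.trans ?_ h1) ?_
  · rfl
  · apply Finset.prod_congr rfl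
    intro w _
    rw [Pr_coin h]
    simp [cq]

/-- the local lemma for coins -/
theorem coin_lll {VV : Type} [Fintype VV] [DecidableEq VV] {p : W → ℝ}
    (h : ∀ w, 0 ≤ p w ∧ p w ≤ 1) (A : VV → Set (W → Bool)) (S : VV → Finset W)
    (hS : ∀ v, Dep (α := fun _ : W => Bool) (S v) fun ω => ω ∈ A v) (ε : ℝ) (a b : ℕ)
    (hε : 0 ≤ ε) (hP : ∀ v, Pr (α := fun _ : W => Bool) (cq p) (A v) ≤ ε)
    (ha : ∀ v, (S v).card ≤ a) (hb : ∀ s, (univ.filter fun v => s ∈ S v).card ≤ b)
    (h1 : 4 * ε * ((a : ℝ) * b) ≤ 1) (h4 : 4 * ε ≤ 1) : ∃ ω, ∀ v, ω ∉ A v := by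
  apply plain_lll (α := fun _ : W => Bool) (cq_prob h) A S hS ε ((a : ℝ) * b) hε h1
    (by linarith) hP
  intro v
  have h2 : (univ.filter fun v' => (S v ∩ S v').Nonempty) ⊆
      (S v).biUnion fun s => univ.filter fun v' => s ∈ S v' := by
    intro v' hv'
    rw [Finset.mem_filter] at hv'
    obtain ⟨-, s, hs⟩ := hv'
    rw [Finset.mem_inter] at hs
    rw [Finset.mem_biUnion]
    exact ⟨s, hs.1, Finset.mem_filter.2 ⟨Finset.mem_univ _, hs.2⟩⟩
  have h3 : (univ.filter fun v' => (S v ∩ S v').Nonempty).card ≤ a * b :=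
    (Finset.card_le_card h2).trans
      ((Finset.card_biUnion_le_card_mul _ _ b fun s _ => hb s).trans
        (Nat.mul_le_mul_right b (ha v)))
  exact_mod_cast h3

theorem card_filter_sum {α β : Type} [Fintype α] [Fintype β] (P : α ⊕ β → Prop)
    [DecidablePred P] :
    (univ.filter P).card = (univ.filter fun a => P (Sum.inl a)).card +
      (univ.filter fun b => P (Sum.inr b)).card := by
  simp only [Finset.card_filter, Fintype.sum_sum_type]

/-- a product of equal factors which are at most one -/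
theorem prod_le {p : W → ℝ} (B : Finset W) (q : ℝ)
    (hq : ∀ w ∈ B, p w = q) (m : ℕ) (hm : m ≤ B.card) (hq0 : 0 ≤ q) (hq1 : q ≤ 1) :
    ∏ w ∈ B, (1 - p w) ≤ (1 - q) ^ m := by
  rw [Finset.prod_congr rfl fun w hw => by rw [hq w hw], Finset.prod_const]
  exact pow_le_pow_of_le_one (by linarith) (by linarith) hm

/-- few coins of a family are heads -/
theorem Pr_many {p : W → ℝ} (h : ∀ w, 0 ≤ p w ∧ p w ≤ 1) {J : Type} [Fintype J] [DecidableEq J]
    (c : J → Prop) [DecidablePred c] (f : J → Set (W → Bool)) (S : J → Finset W)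
    (hf : ∀ a, Dep (α := fun _ : W => Bool) (S a) fun ω => ω ∈ f a)
    (hd : ∀ a b, a ≠ b → Disjoint (S a) (S b)) (r : J → ℝ)
    (hr : ∀ a, Pr (α := fun _ : W => Bool) (cq p) (f a) ≤ r a) (m : ℕ) (hm : 1 ≤ m)
    (X : Set (W → Bool)) (hX : ∀ ω ∈ X, ∃ B : Finset J, B.card = m ∧ ∀ a ∈ B, c a ∧ ω ∈ f a)
    (μ : ℝ) (hμ : ∑ a, (if c a then r a else 0) ≤ μ) :
    Pr (α := fun _ : W => Bool) (cq p) X ≤ (Real.exp 1 * μ / m) ^ m := by
  have hr0 : ∀ a, 0 ≤ r a := fun a => (Pr_nonneg (cq_prob h) _).trans (hr a)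
  have h1 := Pr_items' (α := fun _ : W => Bool) (cq_prob h) S
    (fun a => if c a then f a else ∅) (by
      intro a
      by_cases hc : c a
      · simp only [hc, if_true]
        exact hf a
      · simp only [hc, if_false]
        intro ω η _
        rfl) (fun a => if c a then r a else 0) (by
      intro a
      by_cases hc : c a
      · simp only [hc, if_true]
        exact hr a
      · simp only [hc, if_false]
        have : Pr (α := fun _ : W => Bool) (cq p) ∅ = 0 := by simp [LLLA.Pr]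
        rw [this]) hm
  have hm0 : (0 : ℝ) < m := by exact_mod_cast hm
  have hs0 : 0 ≤ ∑ a, (if c a then r a else 0) := Finset.sum_nonneg fun a _ => by
    split_ifs
    · exact hr0 a
    · exact le_rfl
  refine ((Pr_mono (cq_prob h) ?_).trans h1).trans ?_
  · intro ω hω
    obtain ⟨B, hB, hB2⟩ := hX ω hω
    refine ⟨B, hB, fun a _ b _ hab => hd a b hab, fun a ha => ?_⟩
    obtain ⟨h3, h4⟩ := hB2 a ha
    show ω ∈ (if c a then f a else ∅)
    rw [if_pos h3]
    exact h4
  · apply pow_le_pow_left₀ (by positivity)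
    gcongr

end gen

open scoped Classical

noncomputable section

theorem it_some {V : Type} (f : V → Option V) (hI : Itr f) {t : ℕ} {v u : V}
    (h : it f t v = some u) {j : ℕ} (hj : j ≤ t) :
    ∃ x, it f j v = some x ∧ it f (t - j) x = some u := by
  have h1 := hI.add j (t - j) v
  rw [Nat.add_sub_cancel' hj, h] at h1
  cases hx : it f j v with
  | none => rw [hx] at h1; simp at h1
  | some x =>
    rw [hx] at h1
    exact ⟨x, rfl, h1.symm⟩

section main

variable {V : Type} [Fintype V] {n : ℕ} {C : Fin n → Cl V} {T : ℕ}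

/-- closures with a node `x` meet the reading set of `x` -/
theorem meets_of_clo (hI : ITRStmt) (c : Fin n) {L : ℕ} (hR : Rds (C c) T L)
    {om : (C c).Wk T → Bool} {w : (C c).Wk T} {i l t : ℕ} (h : clo om w i l t) (htL : t ≤ L)
    (hT : i ≤ T) {j : ℕ} (hj : j ≤ t) {y x : V} (hy : w.hd l y)
    (hx : it (cx (rem om w)) j y = some x) : om w = true ∧ w.meets (rd L om x) := by
  obtain ⟨hw, hil, hlT, y', hy', hend, -⟩ := h
  refine ⟨hw, ?_⟩
  rw [hR.meet om w x]
  have : y' = y := Option.some_injective _ (hy'.symm.trans hy)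
  subst this
  obtain ⟨x', hx', hrest⟩ := it_some _ (hI V _) hend hj
  have : x' = x := Option.some_injective _ (hx'.symm.trans hx)
  subst this
  refine ⟨i, hT, ?_⟩
  refine Finset.mem_filter.2 ⟨Finset.mem_univ _, Or.inl ?_⟩
  exact Finset.mem_filter.2 ⟨Finset.mem_univ _, t - j, by omega, hrest⟩

/-- the walks of `om` which meet a set -/
theorem card_meets {C : Cl V} (om : C.Wk T → Bool) (R : Finset V) (K0 : ℕ)
    (h : ∀ u, mult om u < K0) :
    (univ.filter fun w : C.Wk T => om w = true ∧ w.meets R).card ≤ K0 * R.card := by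
  have h2 : (univ.filter fun w : C.Wk T => om w = true ∧ w.meets R) ⊆
      R.biUnion fun u => univ.filter fun w : C.Wk T => om w = true ∧ w.has u := by
    intro w hw
    rw [Finset.mem_filter] at hw
    obtain ⟨-, h1, i, hi, hiR⟩ := hw
    rw [Finset.mem_biUnion]
    exact ⟨_, hiR, Finset.mem_filter.2 ⟨Finset.mem_univ _, h1, i, hi, rfl⟩⟩
  calc _ ≤ _ := Finset.card_le_card h2
    _ ≤ R.card * K0 := Finset.card_biUnion_le_card_mul _ _ K0 fun u _ => (h u).le
    _ = K0 * R.card := mul_comm _ _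

/-- the coordinates -/
abbrev WW (V : Type) (n A : ℕ) : Type := Fin (A + 1) × Fin n × V

/-- the indices of the bad events -/
abbrev IX {V : Type} {n : ℕ} (C : Fin n → Cl V) (T A : ℕ) : Type :=
  (Σ c : Fin n, Fin (A + 1) × (C c).Wk T × Fin T × Fin T) ⊕ (Fin n × V) ⊕ V ⊕ V

variable (L A m0 : ℕ) (τ : ℕ → ℕ) (om : Cf C T)

/-- relevant classes at `v` -/
def cnd (v : V) (x : Fin (A + 1) × Fin n) : Prop :=
  (x.1 : ℕ) = A ∨ Iv (τ x.1) (τ (x.1 + 1)) (om x.2) v

/-- the bad events -/
def Ev : IX C T A → Set (WW V n A → Bool)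
  | Sum.inl ⟨c, a, w, i, l⟩ => {κ | (a : ℕ) < A ∧ ∃ t, clo (om c) w i l t ∧ τ a < t ∧
      t ≤ τ (a + 1) ∧ ∀ j u y, j < τ a → w.hd l y → it (cx (rem (om c) w)) j y = some u →
        (C c).M u → κ (a, c, u) = false}
  | Sum.inr (Sum.inl (c, u)) => {κ | (∀ j, j < L → it (cx (om c)) j u ≠ none) ∧
      (∀ a b, a < b → b < L → it (cx (om c)) a u ≠ it (cx (om c)) b u) ∧
      ∀ j x, j < L → it (cx (om c)) j u = some x → (C c).M x → κ (Fin.last A, c, x) = false}
  | Sum.inr (Sum.inr (Sum.inl v)) => {κ | m0 ≤ (univ.filter fun x : Fin (A + 1) × Fin n =>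
      κ (x.1, x.2, v) = true ∧ cnd A τ om v x).card}
  | Sum.inr (Sum.inr (Sum.inr v)) => {κ | m0 ≤ (univ.filter fun x : Fin (A + 1) × Fin n =>
      (∃ v', cx (om x.2) v' = some v ∧ κ (x.1, x.2, v') = true) ∧ cnd A τ om v x).card}

/-- the coordinates of the bad events -/
def Sv : IX C T A → Finset (WW V n A)
  | Sum.inl ⟨c, a, w, i, l⟩ => univ.filter fun s => s.1 = a ∧ s.2.1 = c ∧ (a : ℕ) < A ∧
      ∃ t, clo (om c) w i l t ∧ τ a < t ∧ t ≤ τ (a + 1) ∧ ∃ j y, j < τ a ∧ w.hd l y ∧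
        it (cx (rem (om c) w)) j y = some s.2.2
  | Sum.inr (Sum.inl (c, u)) => univ.filter fun s => s.1 = Fin.last A ∧ s.2.1 = c ∧
      ∃ j, j < L ∧ it (cx (om c)) j u = some s.2.2
  | Sum.inr (Sum.inr (Sum.inl v)) => univ.filter fun s => s.2.2 = v
  | Sum.inr (Sum.inr (Sum.inr v)) => univ.filter fun s => cx (om s.2.1) s.2.2 = some v

theorem dep_ev (v : IX C T A) :
    Dep (α := fun _ : WW V n A => Bool) (Sv L A τ om v) fun κ => κ ∈ Ev L A m0 τ om v := by
  intro κ η h
  rcases v with ⟨c, a, w, i, l⟩ | ⟨c, u⟩ | v | v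
  · apply propext
    simp only [Ev, Set.mem_ofPred_eq]
    refine and_congr_right fun ha => exists_congr fun t => and_congr_right fun h1 =>
      and_congr_right fun h2 => and_congr_right fun h3 => forall_congr' fun j =>
      forall_congr' fun u => forall_congr' fun y => ?_
    constructor
    · intro h4 h5 h6 h7 h8
      rw [← h _ (Finset.mem_filter.2 ⟨Finset.mem_univ _, rfl, rfl, ha, t, h1, h2, h3, j, y, h5,
        h6, h7⟩)]
      exact h4 h5 h6 h7 h8
    · intro h4 h5 h6 h7 h8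
      rw [h _ (Finset.mem_filter.2 ⟨Finset.mem_univ _, rfl, rfl, ha, t, h1, h2, h3, j, y, h5,
        h6, h7⟩)]
      exact h4 h5 h6 h7 h8
  · apply propext
    simp only [Ev, Set.mem_ofPred_eq]
    refine and_congr_right fun _ => and_congr_right fun _ => forall_congr' fun j =>
      forall_congr' fun x => ?_
    constructor
    · intro h4 h5 h6 h7
      rw [← h _ (Finset.mem_filter.2 ⟨Finset.mem_univ _, rfl, rfl, j, h5, h6⟩)]
      exact h4 h5 h6 h7
    · intro h4 h5 h6 h7
      rw [h _ (Finset.mem_filter.2 ⟨Finset.mem_univ _, rfl, rfl, j, h5, h6⟩)]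
      exact h4 h5 h6 h7
  · apply propext
    simp only [Ev, Set.mem_ofPred_eq]
    have h1 : ∀ x : Fin (A + 1) × Fin n, κ (x.1, x.2, v) = η (x.1, x.2, v) := fun x =>
      h _ (Finset.mem_filter.2 ⟨Finset.mem_univ _, rfl⟩)
    simp only [h1]
  · apply propext
    simp only [Ev, Set.mem_ofPred_eq]
    have h1 : ∀ (x : Fin (A + 1) × Fin n) (v' : V), (cx (om x.2) v' = some v ∧
        κ (x.1, x.2, v') = true) ↔ (cx (om x.2) v' = some v ∧ η (x.1, x.2, v') = true) := by
      intro x v'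
      refine and_congr_right fun h2 => ?_
      rw [h _ (Finset.mem_filter.2 ⟨Finset.mem_univ _, h2⟩)]
    simp only [h1]

theorem card_Sv (hL : 1 ≤ L) (hI : ITRStmt) (hinj : ∀ c (om : (C c).Wk T → Bool), PInj (cx om))
    (hτ : ∀ a, a < A → τ a ≤ L) (v : IX C T A) :
    (Sv L A τ om v).card ≤ (A + 1) * n + L := by
  rcases v with ⟨c, a, w, i, l⟩ | ⟨c, u⟩ | v | v
  · refine le_trans ?_ (Nat.le_add_left _ _)
    rcases hY : (C c).f (w.n (l + 1)) with _ | y
    · have : Sv L A τ om (Sum.inl ⟨c, a, w, i, l⟩) = ∅ := by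
        refine Finset.filter_eq_empty_iff.2 ?_
        rintro s - ⟨-, -, -, t, -, -, -, j, y, -, hy, -⟩
        unfold Wk.hd at hy
        rw [hY] at hy
        simp at hy
      rw [this]
      simp
    · have h1 : Sv L A τ om (Sum.inl ⟨c, a, w, i, l⟩) ⊆
          (univ.filter fun x => ∃ j, j ≤ L - 1 ∧
            it (cx (rem (om c) w)) j y = some x).image fun x => (a, c, x) := by
        intro s hs
        obtain ⟨-, h1, h2, ha, t, -, -, -, j, y', hj, hy', hit⟩ := Finset.mem_filter.1 hs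
        have : y = y' := Option.some_injective _ (hY.symm.trans hy')
        subst this
        refine Finset.mem_image.2 ⟨s.2.2, Finset.mem_filter.2 ⟨Finset.mem_univ _, j, ?_, hit⟩, ?_⟩
        · have := hτ a ha
          omega
        · rw [← h1, ← h2]
      calc _ ≤ _ := Finset.card_le_card h1
        _ ≤ _ := Finset.card_image_le
        _ ≤ L - 1 + 1 := (hI V _).fwd (L - 1) y
        _ = L := by omega
  · refine le_trans ?_ (Nat.le_add_left _ _)
    have h1 : Sv L A τ om (Sum.inr (Sum.inl (c, u))) ⊆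
        (univ.filter fun x => ∃ j, j ≤ L - 1 ∧
          it (cx (om c)) j u = some x).image fun x => (Fin.last A, c, x) := by
      intro s hs
      obtain ⟨-, h1, h2, j, hj, hit⟩ := Finset.mem_filter.1 hs
      refine Finset.mem_image.2 ⟨s.2.2, Finset.mem_filter.2 ⟨Finset.mem_univ _, j, ?_, hit⟩, ?_⟩
      · omega
      · rw [← h1, ← h2]
    calc _ ≤ _ := Finset.card_le_card h1
      _ ≤ _ := Finset.card_image_le
      _ ≤ L - 1 + 1 := (hI V _).fwd (L - 1) u
      _ = L := by omega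
  · refine le_trans ?_ (Nat.le_add_right _ _)
    have h1 : Sv L A τ om (Sum.inr (Sum.inr (Sum.inl v))) ⊆
        (univ : Finset (Fin (A + 1) × Fin n)).image fun x => (x.1, x.2, v) := by
      intro s hs
      obtain ⟨-, h1⟩ := Finset.mem_filter.1 hs
      refine Finset.mem_image.2 ⟨(s.1, s.2.1), Finset.mem_univ _, ?_⟩
      rw [← h1]
    calc _ ≤ _ := Finset.card_le_card h1
      _ ≤ _ := Finset.card_image_le
      _ = (A + 1) * n := by simp
  · refine le_trans ?_ (Nat.le_add_right _ _)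
    have h1 : (Sv L A τ om (Sum.inr (Sum.inr (Sum.inr v)))).card ≤
        (univ : Finset (Fin (A + 1) × Fin n)).card := by
      refine Finset.card_le_card_of_injOn (fun s => (s.1, s.2.1)) (fun _ _ => Finset.mem_univ _) ?_
      intro s hs s' hs' hss
      obtain ⟨-, h1⟩ := Finset.mem_filter.1 hs
      obtain ⟨-, h2⟩ := Finset.mem_filter.1 hs'
      obtain ⟨a, c, x⟩ := s
      obtain ⟨a', c', x'⟩ := s'
      obtain ⟨rfl, rfl⟩ := Prod.mk.inj hss
      have := hinj c (om c) x x' v h1 h2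
      rw [this]
    refine h1.trans (le_of_eq ?_)
    simp

theorem card_coord (K0 : ℕ) (hL : 1 ≤ L) (hI : ITRStmt)
    (hinj : ∀ c (om : (C c).Wk T → Bool), PInj (cx om))
    (hR : ∀ c, Rds (C c) T L) (hK0 : ∀ c u, mult (om c) u < K0)
    (hτ : ∀ a, a < A → τ (a + 1) ≤ L) (s : WW V n A) :
    (univ.filter fun v => s ∈ Sv L A τ om v).card ≤ 2 + L + K0 * (4 * L + 5) * T ^ 2 := by
  obtain ⟨a, c, x⟩ := s
  rw [card_filter_sum, card_filter_sum, card_filter_sum]
  have h1 : (univ.filter fun v => (a, c, x) ∈ Sv L A τ om (Sum.inl v)).card ≤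
      K0 * (4 * L + 5) * T ^ 2 := by
    have h2 : (univ.filter fun v => (a, c, x) ∈ Sv L A τ om (Sum.inl v)) ⊆
        ((univ.filter fun w : (C c).Wk T => om c w = true ∧ w.meets (rd L (om c) x)) ×ˢ
          (univ : Finset (Fin T × Fin T))).image fun z =>
            (⟨c, (a, z.1, z.2.1, z.2.2)⟩ :
              Σ c : Fin n, Fin (A + 1) × (C c).Wk T × Fin T × Fin T) := by
      rintro ⟨c', a', w, i, l⟩ hv
      obtain ⟨-, hv⟩ := Finset.mem_filter.1 hv
      obtain ⟨-, h1, h2, ha, t, hclo, ht1, ht2, j, y, hj, hy, hit⟩ := Finset.mem_filter.1 hv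
      simp only at h1 h2 hit
      subst h1 h2
      have h5 := meets_of_clo hI c (hR c) hclo (ht2.trans (hτ a ha)) i.2.le
        (show j ≤ t by omega) hy hit
      exact Finset.mem_image.2 ⟨(w, i, l), Finset.mem_product.2 ⟨Finset.mem_filter.2
        ⟨Finset.mem_univ _, h5⟩, Finset.mem_univ _⟩, rfl⟩
    calc _ ≤ _ := Finset.card_le_card h2
      _ ≤ _ := Finset.card_image_le
      _ = (univ.filter fun w : (C c).Wk T => om c w = true ∧ w.meets (rd L (om c) x)).card *
          T ^ 2 := by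
        rw [Finset.card_product]
        simp [pow_two]
      _ ≤ (K0 * (rd L (om c) x).card) * T ^ 2 :=
        Nat.mul_le_mul_right _ (card_meets (om c) _ K0 (hK0 c))
      _ ≤ K0 * (4 * L + 5) * T ^ 2 := by
        have := (hR c).card (om c) x
        apply Nat.mul_le_mul_right
        apply Nat.mul_le_mul_left
        omega
  have h2 : (univ.filter fun v => (a, c, x) ∈ Sv L A τ om (Sum.inr (Sum.inl v))).card ≤ L := by
    have h2 : (univ.filter fun v => (a, c, x) ∈ Sv L A τ om (Sum.inr (Sum.inl v))) ⊆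
        (univ.filter fun u => ∃ j, j ≤ L - 1 ∧ it (cx (om c)) j u = some x).image
          fun u => (c, u) := by
      rintro ⟨c', u⟩ hv
      obtain ⟨-, hv⟩ := Finset.mem_filter.1 hv
      obtain ⟨-, -, h2, j, hj, hit⟩ := Finset.mem_filter.1 hv
      simp only at h2 hit
      subst h2
      exact Finset.mem_image.2 ⟨u, Finset.mem_filter.2 ⟨Finset.mem_univ _, j, by omega, hit⟩, rfl⟩
    calc _ ≤ _ := Finset.card_le_card h2
      _ ≤ _ := Finset.card_image_le
      _ ≤ L - 1 + 1 := (hI V _).bwd (hinj c (om c)) (L - 1) x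
      _ = L := by omega
  have h3 : (univ.filter fun v =>
      (a, c, x) ∈ Sv L A τ om (Sum.inr (Sum.inr (Sum.inl v)))).card ≤ 1 := by
    rw [Finset.card_le_one]
    intro v hv v' hv'
    obtain ⟨-, hv⟩ := Finset.mem_filter.1 hv
    obtain ⟨-, hv'⟩ := Finset.mem_filter.1 hv'
    obtain ⟨-, h3⟩ := Finset.mem_filter.1 hv
    obtain ⟨-, h4⟩ := Finset.mem_filter.1 hv'
    exact h3.symm.trans h4
  have h4 : (univ.filter fun v =>
      (a, c, x) ∈ Sv L A τ om (Sum.inr (Sum.inr (Sum.inr v)))).card ≤ 1 := by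
    rw [Finset.card_le_one]
    intro v hv v' hv'
    obtain ⟨-, hv⟩ := Finset.mem_filter.1 hv
    obtain ⟨-, hv'⟩ := Finset.mem_filter.1 hv'
    obtain ⟨-, h3⟩ := Finset.mem_filter.1 hv
    obtain ⟨-, h4⟩ := Finset.mem_filter.1 hv'
    exact Option.some_injective _ (h3.symm.trans h4)
  omega

variable (m : ℕ → ℕ) (pr : ℕ → ℝ) (ε : ℝ)

/-- the weights of the coordinates -/
def pw (pr : ℕ → ℝ) (s : WW V n A) : ℝ := pr s.1

/-- marked nodes on a path give many coordinates -/
theorem path_prob (hp : ∀ a, 0 ≤ pr a ∧ pr a ≤ 1) (c : Fin n) (a : Fin (A + 1))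
    (f : V → Option V) (y : V) (k q : ℕ)
    (hmk : q ≤ (univ.filter fun x => (C c).M x ∧ ∃ j, j < k ∧ it f j y = some x).card)
    (X : Set (WW V n A → Bool)) (hX : ∀ κ ∈ X, ∀ j x, j < k → it f j y = some x → (C c).M x →
      κ (a, c, x) = false) :
    LLLA.Pr (α := fun _ : WW V n A => Bool) (cq (pw A pr)) X ≤ (1 - pr a) ^ q := by
  have hp' : ∀ s : WW V n A, 0 ≤ pw A pr s ∧ pw A pr s ≤ 1 := fun s => hp _
  set B : Finset (WW V n A) := (univ.filter fun x => (C c).M x ∧
    ∃ j, j < k ∧ it f j y = some x).image fun x => (a, c, x) with hB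
  have hcard : q ≤ B.card := by
    rw [hB, Finset.card_image_of_injective]
    · exact hmk
    · intro x x' h
      simpa using h
  have h1 : X ⊆ {κ | ∀ s ∈ B, κ s = false} := by
    intro κ hκ s hs
    obtain ⟨x, hx, rfl⟩ := Finset.mem_image.1 hs
    obtain ⟨-, hM, j, hj, hit⟩ := Finset.mem_filter.1 hx
    exact hX κ hκ j x hj hit hM
  refine (Pr_mono (cq_prob hp') h1).trans ?_
  rw [Pr_allfalse hp']
  exact prod_le B (pr a) (fun s hs => by
    obtain ⟨x, -, rfl⟩ := Finset.mem_image.1 hs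
    rfl) q hcard (hp _).1 (hp _).2

theorem Pr_empty' {W : Type} [Fintype W] [DecidableEq W] (p : W → ℝ) :
    LLLA.Pr (α := fun _ : W => Bool) (cq p) ∅ = 0 := by simp [LLLA.Pr]

theorem sum_cnd (hp : ∀ a, 0 ≤ pr a ∧ pr a ≤ 1)
    (hm : ∀ a, a < A → ∀ v, (univ.filter fun c => Iv (τ a) (τ (a + 1)) (om c) v).card ≤ m a)
    (v : V) : ∑ x, (if cnd A τ om v x then pr x.1 else 0) ≤
      (∑ a ∈ range A, m a * pr a) + n * pr A := by
  rw [Fintype.sum_prod_type, Fin.sum_univ_castSucc]
  apply add_le_add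
  · rw [Finset.sum_range]
    apply Finset.sum_le_sum
    intro a _
    have h1 : ∀ c : Fin n, (if cnd A τ om v (a.castSucc, c) then pr (a.castSucc : Fin (A + 1))
        else 0) = (if Iv (τ a) (τ (a + 1)) (om c) v then pr a else 0) := by
      intro c
      have h2 : cnd A τ om v (a.castSucc, c) ↔ Iv (τ a) (τ (a + 1)) (om c) v := by
        unfold cnd
        simp only [Fin.val_castSucc]
        constructor
        · rintro (h | h)
          · exact absurd h (by have := a.2; omega)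
          · exact h
        · exact Or.inr
      simp only [h2]
      rfl
    rw [Finset.sum_congr rfl fun c _ => h1 c, ← Finset.sum_filter, Finset.sum_const,
      nsmul_eq_mul]
    apply mul_le_mul_of_nonneg_right _ (hp _).1
    exact_mod_cast hm a a.2 v
  · have h1 : ∀ c : Fin n, (if cnd A τ om v (Fin.last A, c) then pr (Fin.last A : Fin (A + 1))
        else 0) = pr A := by
      intro c
      rw [if_pos (show cnd A τ om v (Fin.last A, c) from Or.inl rfl)]
      rfl
    rw [Finset.sum_congr rfl fun c _ => h1 c, Finset.sum_const, nsmul_eq_mul, Finset.card_univ,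
      Fintype.card_fin]

/-- the probabilities of the bad events -/
theorem Pr_Ev (d : ℝ) (L1 : ℕ) (hI : ITRStmt) (hM : MRKStmt)
    (hok : ∀ c, (C c).Ok d) (hL1 : 1 ≤ L1) (hMK : ∀ c, MK (C c) L1) (hm0 : 1 ≤ m0)
    (hinj : ∀ c (om : (C c).Wk T → Bool), PInj (cx om)) (hτA : τ A = L)
    (hp : ∀ a, 0 ≤ pr a ∧ pr a ≤ 1) (hε : 0 ≤ ε)
    (hm : ∀ a, a < A → ∀ v, (univ.filter fun c => Iv (τ a) (τ (a + 1)) (om c) v).card ≤ m a)
    (hpe : ∀ a, a ≤ A → (1 - pr a) ^ (τ a / L1) ≤ ε)
    (hmm : (Real.exp 1 * ((∑ a ∈ range A, m a * pr a) + n * pr A) / m0) ^ m0 ≤ ε)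
    (v : IX C T A) :
    LLLA.Pr (α := fun _ : WW V n A => Bool) (cq (pw A pr)) (Ev L A m0 τ om v) ≤ ε := by
  have hp' : ∀ s : WW V n A, 0 ≤ pw A pr s ∧ pw A pr s ≤ 1 := fun s => hp _
  rcases v with ⟨c, a, w, i, l⟩ | ⟨c, u⟩ | v | v
  · by_cases h : (a : ℕ) < A ∧ ∃ t, clo (om c) w i l t ∧ τ a < t ∧ t ≤ τ (a + 1)
    · obtain ⟨ha, t, hclo, ht1, ht2⟩ := h
      obtain ⟨-, -, -, y, hy, hend, hdist⟩ := hclo
      refine (path_prob (C := C) A pr hp c a (cx (rem (om c) w)) y (τ a) (τ a / L1) ?_ _ ?_).trans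
        (hpe a ha.le)
      · apply hM V (C c) d T L1 (hok c) hL1 (hMK c) (rem (om c) w) y (τ a)
        · intro j hj
          obtain ⟨x, hx, -⟩ := it_some _ (hI V _) hend (show j ≤ t by omega)
          rw [hx]
          simp
        · intro a' b' hab hb
          exact hdist a' b' hab (by omega)
      · intro κ hκ j x hj hit hMx
        obtain ⟨-, t', -, -, -, hall⟩ := hκ
        exact hall j x y hj hy hit hMx
    · have : Ev L A m0 τ om (Sum.inl ⟨c, a, w, i, l⟩) = ∅ := by
        rw [Set.eq_empty_iff_forall_notMem]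
        rintro κ ⟨h1, t, h2, h3, h4, -⟩
        exact h ⟨h1, t, h2, h3, h4⟩
      rw [this, Pr_empty']
      exact hε
  · by_cases h : (∀ j, j < L → it (cx (om c)) j u ≠ none) ∧
      (∀ a b, a < b → b < L → it (cx (om c)) a u ≠ it (cx (om c)) b u)
    · refine (path_prob (C := C) A pr hp c (Fin.last A) (cx (om c)) u L (L / L1) ?_ _ ?_).trans ?_
      · exact hM V (C c) d T L1 (hok c) hL1 (hMK c) (om c) u L h.1 h.2
      · intro κ hκ j x hj hit hMx
        exact hκ.2.2 j x hj hit hMx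
      · have := hpe A le_rfl
        rw [hτA] at this
        exact this
    · have : Ev L A m0 τ om (Sum.inr (Sum.inl (c, u))) = ∅ := by
        rw [Set.eq_empty_iff_forall_notMem]
        rintro κ ⟨h1, h2, -⟩
        exact h ⟨h1, h2⟩
      rw [this, Pr_empty']
      exact hε
  · refine (Pr_many hp' (cnd A τ om v) (fun x => {κ | κ (x.1, x.2, v) = true})
      (fun x => {(x.1, x.2, v)}) ?_ ?_ (fun x => pr x.1) ?_ m0 hm0 _ ?_ _
      (sum_cnd A τ om m pr hp hm v)).trans hmm
    · intro x κ η h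
      have := h _ (Finset.mem_singleton_self _)
      show (κ (x.1, x.2, v) = true) = (η (x.1, x.2, v) = true)
      rw [this]
    · intro x y hxy
      rw [Finset.disjoint_singleton]
      intro h
      apply hxy
      obtain ⟨h1, h2⟩ := Prod.mk.inj h
      obtain ⟨h3, -⟩ := Prod.mk.inj h2
      exact Prod.ext h1 h3
    · intro x
      rw [Pr_coin hp']
      simp [cq, pw]
    · intro κ hκ
      obtain ⟨B, hB, hB2⟩ := Finset.exists_subset_card_eq (show m0 ≤ _ from hκ)
      refine ⟨B, hB2, fun x hx => ?_⟩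
      obtain ⟨-, h1, h2⟩ := Finset.mem_filter.1 (hB hx)
      exact ⟨h2, h1⟩
  · refine (Pr_many hp' (cnd A τ om v)
      (fun x => {κ | ∃ v', cx (om x.2) v' = some v ∧ κ (x.1, x.2, v') = true})
      (fun x => univ.filter fun s => s.1 = x.1 ∧ s.2.1 = x.2 ∧ cx (om x.2) s.2.2 = some v)
      ?_ ?_ (fun x => pr x.1) ?_ m0 hm0 _ ?_ _
      (sum_cnd A τ om m pr hp hm v)).trans hmm
    · intro x κ η h
      apply propext
      refine exists_congr fun v' => and_congr_right fun h1 => ?_
      rw [h (x.1, x.2, v') (Finset.mem_filter.2 ⟨Finset.mem_univ _, rfl, rfl, h1⟩)]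
    · intro x y hxy
      rw [Finset.disjoint_left]
      intro s hs hs'
      obtain ⟨-, h1, h2, -⟩ := Finset.mem_filter.1 hs
      obtain ⟨-, h3, h4, -⟩ := Finset.mem_filter.1 hs'
      exact hxy (Prod.ext (h1.symm.trans h3) (h2.symm.trans h4))
    · intro x
      by_cases h : ∃ v', cx (om x.2) v' = some v
      · obtain ⟨v', hv'⟩ := h
        have h1 : {κ : WW V n A → Bool | ∃ v', cx (om x.2) v' = some v ∧
            κ (x.1, x.2, v') = true} ⊆ {κ | κ (x.1, x.2, v') = true} := by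
          rintro κ ⟨v'', h1, h2⟩
          have := hinj x.2 (om x.2) v'' v' v h1 hv'
          subst this
          exact h2
        refine (Pr_mono (cq_prob hp') h1).trans ?_
        rw [Pr_coin hp']
        simp [cq, pw]
      · have : {κ : WW V n A → Bool | ∃ v', cx (om x.2) v' = some v ∧
            κ (x.1, x.2, v') = true} = ∅ := by
          rw [Set.eq_empty_iff_forall_notMem]
          rintro κ ⟨v'', h1, -⟩
          exact h ⟨v'', h1⟩
        rw [this, Pr_empty']
        exact (hp _).1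
    · intro κ hκ
      obtain ⟨B, hB, hB2⟩ := Finset.exists_subset_card_eq (show m0 ≤ _ from hκ)
      refine ⟨B, hB2, fun x hx => ?_⟩
      obtain ⟨-, h1, h2⟩ := Finset.mem_filter.1 (hB hx)
      exact ⟨h2, h1⟩

omit om in
/-- COI. -/
theorem coi (hP : PIMStmt) (hI : ITRStmt) (hRd : RDSStmt) (hM : MRKStmt) : COIStmt := by
  intro V _ n C d T L L1 K0 A m0 τ m pr ε om hok hL hTL hL1 hm0 hMK hτA hτ hK0 hm hp hε hpe hmm
    h1 h4
  have hinj : ∀ c (om : (C c).Wk T → Bool), PInj (cx om) := fun c => (hP V (C c) d T (hok c)).inj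
  have hτL : ∀ a, a ≤ A → τ a ≤ L := by
    have key : ∀ k, k ≤ A → τ (A - k) ≤ L := by
      intro k
      induction k with
      | zero => intro _; rw [Nat.sub_zero, hτA]
      | succ k ih =>
        intro hk
        have h2 := hτ (A - (k + 1)) (by omega)
        have h3 : A - (k + 1) + 1 = A - k := by omega
        rw [h3] at h2
        exact h2.trans (ih (by omega))
    intro a ha
    have := key (A - a) (by omega)
    rwa [Nat.sub_sub_self ha] at this
  have hp' : ∀ s : WW V n A, 0 ≤ pw A pr s ∧ pw A pr s ≤ 1 := fun s => hp _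
  obtain ⟨κ, hκ⟩ := coin_lll hp' (Ev L A m0 τ om) (Sv L A τ om) (dep_ev L A m0 τ om) ε
    ((A + 1) * n + L) (2 + L + K0 * (4 * L + 5) * T ^ 2) hε
    (Pr_Ev L A m0 τ om m pr ε d L1 hI hM hok hL1 hMK hm0 hinj hτA hp hε hm hpe hmm)
    (card_Sv L A τ om hL hI hinj fun a ha => hτL a ha.le)
    (card_coord L A τ om K0 hL hI hinj (fun c => hRd V (C c) d T L (hok c) hL) hK0
      fun a ha => hτL (a + 1) ha)
    (by push_cast; exact h1) h4
  let κ' : ℕ → Fin n → V → Bool := fun a c v => if h : a < A + 1 then κ (⟨a, h⟩, c, v) else false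
  have hκ' : ∀ (a : Fin (A + 1)) c v, κ' a c v = κ (a, c, v) := by
    intro a c v
    show (if h : (a : ℕ) < A + 1 then κ (⟨a, h⟩, c, v) else false) = _
    rw [dif_pos a.2]
  refine ⟨κ', ?_, ?_, ?_, ?_⟩
  · intro a ha c w i l t hclo h2 h3
    by_contra hno
    push Not at hno
    have hil := hclo.2.1
    have hlT := hclo.2.2.1
    apply hκ (Sum.inl ⟨c, (⟨a, by omega⟩, w, ⟨i, by omega⟩, ⟨l, hlT⟩)⟩)
    refine ⟨ha, t, hclo, h2, h3, ?_⟩
    intro j u y hj hy hit hMu
    have := hno j u y hj hy hit hMu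
    have h5 := hκ' ⟨a, by omega⟩ c u
    simp only at h5
    rw [← h5]
    simpa using this
  · intro c u h2 h3
    by_contra hno
    push Not at hno
    apply hκ (Sum.inr (Sum.inl (c, u)))
    refine ⟨h2, h3, ?_⟩
    intro j x hj hit hMx
    have := hno j x hj hit hMx
    rw [← hκ']
    simpa using this
  · intro v
    by_contra hno
    push Not at hno
    apply hκ (Sum.inr (Sum.inr (Sum.inl v)))
    refine hno.trans ?_
    refine le_trans (Finset.card_le_card (t := (univ.filter fun x : Fin (A + 1) × Fin n =>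
      κ (x.1, x.2, v) = true ∧ cnd A τ om v x).image fun x => ((x.1 : ℕ), x.2)) ?_)
      Finset.card_image_le
    rintro ⟨a, c⟩ hx
    obtain ⟨h5, h6, h7⟩ := Finset.mem_filter.1 hx
    have ha : a < A + 1 := Finset.mem_range.1 (Finset.mem_product.1 h5).1
    refine Finset.mem_image.2 ⟨(⟨a, ha⟩, c), Finset.mem_filter.2 ⟨Finset.mem_univ _, ?_, h7⟩, rfl⟩
    rw [← hκ']
    exact h6
  · intro v
    by_contra hno
    push Not at hno
    apply hκ (Sum.inr (Sum.inr (Sum.inr v)))
    refine hno.trans ?_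
    refine le_trans (Finset.card_le_card (t := (univ.filter fun x : Fin (A + 1) × Fin n =>
      (∃ v', cx (om x.2) v' = some v ∧ κ (x.1, x.2, v') = true) ∧
        cnd A τ om v x).image fun x => ((x.1 : ℕ), x.2)) ?_)
      Finset.card_image_le
    rintro ⟨a, c⟩ hx
    obtain ⟨h5, ⟨v', h6, h8⟩, h7⟩ := Finset.mem_filter.1 hx
    have ha : a < A + 1 := Finset.mem_range.1 (Finset.mem_product.1 h5).1
    refine Finset.mem_image.2 ⟨(⟨a, ha⟩, c), Finset.mem_filter.2 ⟨Finset.mem_univ _,
      ⟨v', h6, ?_⟩, h7⟩, rfl⟩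
    rw [← hκ']
    exact h8

end main

end

end Pool.Agent.C4K.H59

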