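import Pool.Agent.C4K.StLin
import Pool.Agent.Helper59_C4K.Coi

/-!
# C4K, module COIG: the coins with linear events
-/

set_option autoImplicit false
set_option linter.unusedSectionVars false

namespace Pool.Agent.C4K.H59

open Finset Cl Pool.Agent.LLLA
open scoped Classical

noncomputable section

/-- probability of a linear event -/
theorem Pr_lin {W : Type} [Fintype W] [DecidableEq W] {p : W → ℝ}
    (h : ∀ w, 0 ≤ p w ∧ p w ≤ 1) (g : W → ℝ) (wm X : ℝ) (hwm : 0 < wm)
    (hg : ∀ w, 0 ≤ g w ∧ g w ≤ wm) (hX : 7 * ∑ w, g w * p w ≤ X) :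
    LLLA.Pr (α := fun _ : W => Bool) (cq p)
      {ω | X < ∑ w, g w * (if ω w = true then 1 else 0)} ≤ Real.exp (-(X / wm)) := by
  have hE : ∀ w : W, LLLA.Ex (α := fun _ : W => Bool) (cq p)
      (fun ω => g w / wm * (if ω w = true then 1 else 0)) = g w / wm * p w := by
    intro w
    rw [LLLA.Ex_const_mul]
    congr 1
    have := Ex_coord (α := fun _ : W => Bool) (cq_prob h) w true
    rw [this]
    simp [cq]
  have hI : IndSum (α := fun _ : W => Bool) (cq p) (univ : Finset W) (fun w => {w})
      (fun w ω => g w / wm * (if ω w = true then 1 else 0)) := by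
    refine ⟨cq_prob h, ?_, ?_, ?_, ?_⟩
    · intro i _ j _ hij
      rw [Finset.disjoint_singleton]
      exact hij
    · intro i _ ω η hw
      have := hw i (Finset.mem_singleton_self i)
      simp only [this]
    · intro i _ ω
      have h1 := (hg i).1
      positivity
    · intro i _ ω
      have h1 : g i / wm ≤ 1 := (div_le_one hwm).2 (hg i).2
      have h2 : 0 ≤ g i / wm := div_nonneg (hg i).1 hwm.le
      split_ifs
      · linarith
      · linarith
  have h1 := hI.chern_far (a := X / wm) (by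
    rw [Finset.sum_congr rfl fun w _ => hE w]
    have h2 : ∑ w, g w / wm * p w = (∑ w, g w * p w) / wm := by
      rw [Finset.sum_div]
      exact Finset.sum_congr rfl fun w _ => by ring
    rw [h2, ← mul_div_assoc]
    gcongr)
  refine (Pr_mono (cq_prob h) ?_).trans h1
  intro ω hω
  show X / wm ≤ ∑ w, g w / wm * (if ω w = true then 1 else 0)
  have h2 : ∑ w, g w / wm * (if ω w = true then (1 : ℝ) else 0) =
      (∑ w, g w * (if ω w = true then 1 else 0)) / wm := by
    rw [Finset.sum_div]
    exact Finset.sum_congr rfl fun w _ => by ring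
  rw [h2]
  gcongr
  exact le_of_lt hω

section main

variable {V : Type} [Fintype V] {n : ℕ} {C : Fin n → Cl V} {T : ℕ}

/-- sums over the coordinates -/
theorem sum_WW {A : ℕ} (F : ℕ → Fin n → V → ℝ) :
    ∑ s : WW V n A, F s.1 s.2.1 s.2.2 = ∑ a ∈ range (A + 1), ∑ c, ∑ v, F a c v := by
  rw [Fintype.sum_prod_type, Finset.sum_range]
  apply Finset.sum_congr rfl
  intro a _
  rw [Fintype.sum_prod_type]

/-- COIG. -/
theorem coig (hP : PIMStmt) (hI : ITRStmt) (hRd : RDSStmt) (hM : MRKStmt) : COIGStmt := by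
  intro V _ n C d T L L1 K0 A m0 τ m pr ε om hok hL hTL hL1 hm0 hMK hτA hτ hK0 hm hp hε hpe hmm
    U _ g wm X S2 S3 hwm hg hgX hexp hS2 hS3 h1 h4
  have hinj : ∀ c (om : (C c).Wk T → Bool), PInj (cx om) := fun c => (hP V (C c) d T (hok c)).inj
  have hτL : ∀ a, a ≤ A → τ a ≤ L := by
    have key : ∀ k, k ≤ A → τ (A - k) ≤ L := by
      intro k
      induction k with
      | zero => intro _; rw [Nat.sub_zero, hτA]
      | succ k ih =>
        intro hk
        have h2 := hτ (A - (k + 1)) (by omega)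
        have h3 : A - (k + 1) + 1 = A - k := by omega
        rw [h3] at h2
        exact h2.trans (ih (by omega))
    intro a ha
    have := key (A - a) (by omega)
    rwa [Nat.sub_sub_self ha] at this
  have hp' : ∀ s : WW V n A, 0 ≤ pw A pr s ∧ pw A pr s ≤ 1 := fun s => hp _
  let EU : U → Set (WW V n A → Bool) := fun u =>
    {κ | X < ∑ s : WW V n A, g u s.1 s.2.1 s.2.2 * (if κ s = true then 1 else 0)}
  let SU : U → Finset (WW V n A) := fun u => univ.filter fun s => g u s.1 s.2.1 s.2.2 ≠ 0
  obtain ⟨κ, hκ⟩ := coin_lll (VV := IX C T A ⊕ U) hp' (Sum.elim (Ev L A m0 τ om) EU)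
    (Sum.elim (Sv L A τ om) SU) (by
      rintro (v | u)
      · exact dep_ev L A m0 τ om v
      · intro κ η h
        have h2 : ∀ s : WW V n A, g u s.1 s.2.1 s.2.2 * (if κ s = true then (1 : ℝ) else 0) =
            g u s.1 s.2.1 s.2.2 * (if η s = true then 1 else 0) := by
          intro s
          by_cases h3 : g u s.1 s.2.1 s.2.2 = 0
          · rw [h3, zero_mul, zero_mul]
          · rw [h s (Finset.mem_filter.2 ⟨Finset.mem_univ _, h3⟩)]
        show (X < ∑ s : WW V n A, g u s.1 s.2.1 s.2.2 * (if κ s = true then (1 : ℝ) else 0)) =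
          (X < ∑ s : WW V n A, g u s.1 s.2.1 s.2.2 * (if η s = true then (1 : ℝ) else 0))
        rw [Finset.sum_congr rfl fun s _ => h2 s]) ε
    ((A + 1) * n + L + S2) (2 + L + K0 * (4 * L + 5) * T ^ 2 + S3) hε (by
      rintro (v | u)
      · exact Pr_Ev L A m0 τ om m pr ε d L1 hI hM hok hL1 hMK hm0 hinj hτA hp hε hm hpe hmm v
      · refine (Pr_lin hp' (fun s : WW V n A => g u s.1 s.2.1 s.2.2) wm X hwm
          (fun s => hg u _ _ _) ?_).trans hexp
        have h2 := sum_WW (V := V) (n := n) (A := A) (fun a c v => g u a c v * pr a)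
        have h3 : ∑ s : WW V n A, g u s.1 s.2.1 s.2.2 * pw A pr s =
            ∑ a ∈ range (A + 1), ∑ c, ∑ v, g u a c v * pr a := h2
        rw [h3]
        exact hgX u) (by
      rintro (v | u)
      · exact (card_Sv L A τ om hL hI hinj (fun a ha => hτL a ha.le) v).trans (by omega)
      · refine le_trans ?_ (Nat.le_add_left _ _)
        refine le_trans ?_ (hS2 u)
        refine Finset.card_le_card_of_injOn (fun s : WW V n A => ((s.1 : ℕ), s.2)) ?_ ?_
        · intro s hs
          obtain ⟨-, h2⟩ := Finset.mem_filter.1 hs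
          exact Finset.mem_filter.2 ⟨Finset.mem_product.2 ⟨Finset.mem_range.2 s.1.2,
            Finset.mem_univ _⟩, h2⟩
        · intro s _ s' _ hss
          obtain ⟨h2, h3⟩ := Prod.mk.inj hss
          exact Prod.ext (Fin.ext h2) h3) (by
      intro s
      rw [card_filter_sum]
      refine Nat.add_le_add ?_ ?_
      · exact card_coord L A τ om K0 hL hI hinj (fun c => hRd V (C c) d T L (hok c) hL) hK0
          (fun a ha => hτL (a + 1) ha) s
      · refine le_trans (Finset.card_le_card ?_) (hS3 s.2.1 s.2.2)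
        intro u hu
        obtain ⟨-, hu⟩ := Finset.mem_filter.1 hu
        obtain ⟨-, h2⟩ := Finset.mem_filter.1 hu
        refine Finset.mem_filter.2 ⟨Finset.mem_univ _, s.1, ?_, h2⟩
        have := s.1.2
        omega) (by
      push_cast
      exact h1) h4
  let κ' : ℕ → Fin n → V → Bool := fun a c v => if h : a < A + 1 then κ (⟨a, h⟩, c, v) else false
  have hκ' : ∀ (a : Fin (A + 1)) c v, κ' a c v = κ (a, c, v) := by
    intro a c v
    show (if h : (a : ℕ) < A + 1 then κ (⟨a, h⟩, c, v) else false) = _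
    rw [dif_pos a.2]
  have hκ1 : ∀ v, κ ∉ Ev L A m0 τ om v := fun v => hκ (Sum.inl v)
  refine ⟨κ', ⟨?_, ?_, ?_, ?_⟩, ?_⟩
  · intro a ha c w i l t hclo h2 h3
    by_contra hno
    push Not at hno
    have hil := hclo.2.1
    have hlT := hclo.2.2.1
    apply hκ1 (Sum.inl ⟨c, (⟨a, by omega⟩, w, ⟨i, by omega⟩, ⟨l, hlT⟩)⟩)
    refine ⟨ha, t, hclo, h2, h3, ?_⟩
    intro j u y hj hy hit hMu
    have := hno j u y hj hy hit hMu
    have h5 := hκ' ⟨a, by omega⟩ c u
    simp only at h5
    rw [← h5]
    simpa using this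
  · intro c u h2 h3
    by_contra hno
    push Not at hno
    apply hκ1 (Sum.inr (Sum.inl (c, u)))
    refine ⟨h2, h3, ?_⟩
    intro j x hj hit hMx
    have := hno j x hj hit hMx
    rw [← hκ']
    simpa using this
  · intro v
    by_contra hno
    push Not at hno
    apply hκ1 (Sum.inr (Sum.inr (Sum.inl v)))
    refine hno.trans ?_
    refine le_trans (Finset.card_le_card (t := (univ.filter fun x : Fin (A + 1) × Fin n =>
      κ (x.1, x.2, v) = true ∧ cnd A τ om v x).image fun x => ((x.1 : ℕ), x.2)) ?_)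
      Finset.card_image_le
    rintro ⟨a, c⟩ hx
    obtain ⟨h5, h6, h7⟩ := Finset.mem_filter.1 hx
    have ha : a < A + 1 := Finset.mem_range.1 (Finset.mem_product.1 h5).1
    refine Finset.mem_image.2 ⟨(⟨a, ha⟩, c), Finset.mem_filter.2 ⟨Finset.mem_univ _, ?_, h7⟩, rfl⟩
    rw [← hκ']
    exact h6
  · intro v
    by_contra hno
    push Not at hno
    apply hκ1 (Sum.inr (Sum.inr (Sum.inr v)))
    refine hno.trans ?_
    refine le_trans (Finset.card_le_card (t := (univ.filter fun x : Fin (A + 1) × Fin n =>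
      (∃ v', cx (om x.2) v' = some v ∧ κ (x.1, x.2, v') = true) ∧
        cnd A τ om v x).image fun x => ((x.1 : ℕ), x.2)) ?_)
      Finset.card_image_le
    rintro ⟨a, c⟩ hx
    obtain ⟨h5, ⟨v', h6, h8⟩, h7⟩ := Finset.mem_filter.1 hx
    have ha : a < A + 1 := Finset.mem_range.1 (Finset.mem_product.1 h5).1
    refine Finset.mem_image.2 ⟨(⟨a, ha⟩, c), Finset.mem_filter.2 ⟨Finset.mem_univ _,
      ⟨v', h6, ?_⟩, h7⟩, rfl⟩
    rw [← hκ']
    exact h8
  · intro u
    by_contra hno
    push Not at hno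
    apply hκ (Sum.inr u)
    show X < ∑ s : WW V n A, g u s.1 s.2.1 s.2.2 * (if κ s = true then 1 else 0)
    refine hno.trans_le (le_of_eq ?_)
    rw [← sum_WW (V := V) (n := n) (A := A)
      (fun a c v => g u a c v * (if κ' a c v = true then 1 else 0))]
    apply Finset.sum_congr rfl
    rintro ⟨a, c, v⟩ _
    simp only [hκ']

end main

end

end Pool.Agent.C4K.H59

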